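import Pool.Agent.H31.Tuk

open Pool.Agent.H31.Tuk

theorem Pool.Agent.Results.MP_f56686_gt.Neg.result :
    ∃ (X : Type) (_ : UniformSpace X), T0Space X ∧ OmegaNarrow X ∧
      ¬ TukeyLE (NhdsOne X) (ℕ → Ent X) :=
  ⟨X, inferInstance, sep_X, narrow_X, main2⟩
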